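import Pool.Agent.Hhelper49.CWC.Steps

set_option autoImplicit false

namespace Pool.Agent.Results.MP_55ffcb_co.FixedDistance

/-- `A(n,d,w₁) ≤ A(n,d,w₂)` for all `w₁ < w₂` if `d ≤ 4` and `w₂ ≤ 3n/8`, and for every `d ≥ 1`
if `w₂ · 2^d · (⌈d/2⌉ - 1)! ≤ n`. -/
theorem result (n d w₁ w₂ : ℕ) (hd : 1 ≤ d) (h12 : w₁ < w₂)
    (hn : (d ≤ 4 ∧ 8 * w₂ ≤ 3 * n) ∨ w₂ * 2 ^ d * ((d + 1) / 2 - 1).factorial ≤ n)
    (C : Finset (Finset (Fin n)))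
    (hC : ∀ s ∈ C, s.card = w₁)
    (hD : ∀ s ∈ C, ∀ t ∈ C, s ≠ t → d ≤ (symmDiff s t).card) :
    ∃ C' : Finset (Finset (Fin n)),
      C'.card = C.card ∧
      (∀ s ∈ C', s.card = w₂) ∧
      (∀ s ∈ C', ∀ t ∈ C', s ≠ t → d ≤ (symmDiff s t).card) :=
  Pool.Agent.Hhelper49.CWC.mono_fixed n d w₁ w₂ hd h12.le hn C hC hD

end Pool.Agent.Results.MP_55ffcb_co.FixedDistance
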