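import Pool.Agent.Hhelper49.CWC.Main

set_option autoImplicit false

namespace Pool.Agent.Results.MP_55ffcb_co.LowWeights

/-- `A(n,d,w₁) ≤ A(n,d,w₂)` for all `w₁ < w₂ ≤ n/2` with `w₂ ≤ (d+5)/2`: any set of weight-`w₁`
binary words of length `n` with pairwise distance at least `d` can be matched in size by such a set
of weight-`w₂` words. Words are subsets of `Fin n`; the Hamming distance is the size of the
symmetric difference. -/
theorem result (n d w₁ w₂ : ℕ) (hd : 1 ≤ d) (h12 : w₁ < w₂) (hn : 2 * w₂ ≤ n)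
    (hwd : 2 * w₂ ≤ d + 5) (C : Finset (Finset (Fin n)))
    (hC : ∀ s ∈ C, s.card = w₁)
    (hD : ∀ s ∈ C, ∀ t ∈ C, s ≠ t → d ≤ (symmDiff s t).card) :
    ∃ C' : Finset (Finset (Fin n)),
      C'.card = C.card ∧
      (∀ s ∈ C', s.card = w₂) ∧
      (∀ s ∈ C', ∀ t ∈ C', s ≠ t → d ≤ (symmDiff s t).card) :=
  Pool.Agent.Hhelper49.CWC.mono n d w₁ w₂ hd h12.le hn hwd C hC hD

end Pool.Agent.Results.MP_55ffcb_co.LowWeights
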