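import Pool.Agent.Hhelper49.CWC.Steps

set_option autoImplicit false

namespace Pool.Agent.Results.MP_55ffcb_co.SmallWeights

/-- `A(n,d,w₁) ≤ A(n,d,w₂)` for all `n`, all `d ≥ 1` and all `w₁ < w₂ ≤ n/2` with `w₂ ≤ 5`. -/
theorem result (n d w₁ w₂ : ℕ) (hd : 1 ≤ d) (h12 : w₁ < w₂) (hn : 2 * w₂ ≤ n) (h5 : w₂ ≤ 5)
    (C : Finset (Finset (Fin n)))
    (hC : ∀ s ∈ C, s.card = w₁)
    (hD : ∀ s ∈ C, ∀ t ∈ C, s ≠ t → d ≤ (symmDiff s t).card) :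
    ∃ C' : Finset (Finset (Fin n)),
      C'.card = C.card ∧
      (∀ s ∈ C', s.card = w₂) ∧
      (∀ s ∈ C', ∀ t ∈ C', s ≠ t → d ≤ (symmDiff s t).card) :=
  Pool.Agent.Hhelper49.CWC.mono_five n d w₁ w₂ hd h12.le hn h5 C hC hD

end Pool.Agent.Results.MP_55ffcb_co.SmallWeights
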