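import Pool.Agent.Hhelper49.CWC.Cheb

set_option autoImplicit false

namespace Pool.Agent.Results.MP_55ffcb_co.SqrtFactor

/-- `A(n,d,w₁) ≤ 4 √w₁ · A(n,d,w₂)` for all `n`, all `d` and all `1 ≤ w₁ < w₂ ≤ n/2`. -/
theorem result (n d w₁ w₂ : ℕ) (hw : 1 ≤ w₁) (h12 : w₁ < w₂) (hn : 2 * w₂ ≤ n)
    (C : Finset (Finset (Fin n)))
    (hC : ∀ s ∈ C, s.card = w₁)
    (hD : ∀ s ∈ C, ∀ t ∈ C, s ≠ t → d ≤ (symmDiff s t).card) :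
    ∃ C' : Finset (Finset (Fin n)),
      (C.card : ℝ) ≤ 4 * √(w₁ : ℝ) * (C'.card : ℝ) ∧
      (∀ s ∈ C', s.card = w₂) ∧
      (∀ s ∈ C', ∀ t ∈ C', s ≠ t → d ≤ (symmDiff s t).card) :=
  Pool.Agent.Hhelper49.CWC.almost_mono n d w₁ w₂ hw h12.le hn C hC hD

end Pool.Agent.Results.MP_55ffcb_co.SqrtFactor
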